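import Pool.Agent.H70.RC.Targets

/-! Modules INS, ANL, DNF. -/

set_option autoImplicit false

namespace Pool.Agent.H32.RC

open Pool.Agent.H6.NB Pool.Agent.H70.RC

/-- The instance strings determine the machine and the input. -/
theorem inst_inj (hCOD : Pool.Agent.H6.NB.T_COD) {c c' i j : ℕ} {x y : List Bool}
    (h : inst c i x = inst c' j y) : i = j ∧ x = y := by
  obtain ⟨h1, h2, -⟩ := hCOD.1 _ _ _ _ _ _ h
  refine ⟨?_, h1⟩
  have := congrArg List.length h2
  simpa using this

/-- (INS) -/
theorem pf_INS (hCOD : Pool.Agent.H6.NB.T_COD) : T_INS := by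
  intro V O i x
  constructor
  · rintro ⟨j, y, h, hy⟩
    obtain ⟨h1, h2⟩ := inst_inj hCOD h
    subst h1
    subst h2
    exact hy
  · intro h
    exact ⟨i, x, rfl, h⟩

theorem inst_length (hCOD : Pool.Agent.H6.NB.T_COD) (c i : ℕ) (x : List Bool) :
    (x.length ^ c + c + 1) ^ 2 ≤ (inst c i x).length := by
  unfold inst
  rw [hCOD.2]
  omega

/-- The value of a tree depends only on the short strings. -/
theorem eval_short (m : ℕ) (O O' : List Bool → Bool) (h : ∀ w : List Bool, w.length ≤ m → O w = O' w) :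
    ∀ T : DT, T.Short m → T.eval O = T.eval O'
  | .leaf _, _ => rfl
  | .node w l r, hT => by
      obtain ⟨h1, h2, h3⟩ := hT
      have e1 := eval_short m O O' h l h2
      have e2 := eval_short m O O' h r h3
      simp only [DT.eval, h w h1, e1, e2]

/-- (ANL) -/
theorem pf_ANL (hCOD : Pool.Agent.H6.NB.T_COD) : T_ANL := by
  have key : ∀ (V : ℕ → Verifier) (O O' : List Bool → Bool) (s : List Bool),
      (∀ w : List Bool, w.length < s.length → O w = O' w) → ans V O s → ans V O' s := by
    rintro V O O' s h ⟨i, x, hs, w, hw, hT⟩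
    refine ⟨i, x, hs, w, hw, ?_⟩
    have h1 := inst_length hCOD (V i).c i x
    rw [← hs] at h1
    rw [← eval_short _ O O' ?_ _ ((V i).short x w hw)]
    · exact hT
    · intro v hv
      apply h
      nlinarith
  intro V O O' s h
  exact ⟨key V O O' s h, key V O' O s fun w hw => (h w hw).symm⟩

/-- The accepting branches of a tree. -/
def abr : DT → List (Term (List Bool))
  | .leaf b => if b then [[]] else []
  | .node w l r => (abr l).map (fun τ => (w, false) :: τ) ++ (abr r).map (fun τ => (w, true) :: τ)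

theorem abr_len : ∀ T : DT, (abr T).length ≤ 2 ^ T.depth
  | .leaf b => by
      unfold abr
      split_ifs <;> simp [DT.depth]
  | .node w l r => by
      have h1 := abr_len l
      have h2 := abr_len r
      have h3 : 2 ^ l.depth ≤ 2 ^ max l.depth r.depth :=
        Nat.pow_le_pow_right (by norm_num) (le_max_left _ _)
      have h4 : 2 ^ r.depth ≤ 2 ^ max l.depth r.depth :=
        Nat.pow_le_pow_right (by norm_num) (le_max_right _ _)
      simp only [abr, List.length_append, List.length_map, DT.depth]
      rw [pow_succ]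
      omega

theorem abr_tl : ∀ T : DT, ∀ τ ∈ abr T, τ.length ≤ T.depth
  | .leaf b => by
      intro τ hτ
      unfold abr at hτ
      split_ifs at hτ
      · rw [List.mem_singleton.1 hτ]
        simp
      · exact absurd hτ (List.not_mem_nil)
  | .node w l r => by
      intro τ hτ
      simp only [abr, List.mem_append, List.mem_map] at hτ
      simp only [DT.depth]
      rcases hτ with ⟨τ', h1, rfl⟩ | ⟨τ', h1, rfl⟩
      · have := abr_tl l τ' h1
        have h2 := le_max_left l.depth r.depth
        simp only [List.length_cons]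
        omega
      · have := abr_tl r τ' h1
        have h2 := le_max_right l.depth r.depth
        simp only [List.length_cons]
        omega

theorem abr_ql (m : ℕ) : ∀ T : DT, T.Short m → ∀ τ ∈ abr T, ∀ p ∈ τ, p.1.length ≤ m
  | .leaf b => by
      intro _ τ hτ
      unfold abr at hτ
      split_ifs at hτ
      · rw [List.mem_singleton.1 hτ]
        simp
      · exact absurd hτ (List.not_mem_nil)
  | .node w l r => by
      rintro ⟨hs1, hs2, hs3⟩ τ hτ p hp
      simp only [abr, List.mem_append, List.mem_map] at hτ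
      rcases hτ with ⟨τ', h1, rfl⟩ | ⟨τ', h1, rfl⟩
      · rcases List.mem_cons.1 hp with rfl | hp'
        · exact hs1
        · exact abr_ql m l hs2 τ' h1 p hp'
      · rcases List.mem_cons.1 hp with rfl | hp'
        · exact hs1
        · exact abr_ql m r hs3 τ' h1 p hp'

theorem abr_sat (O : List Bool → Bool) : ∀ T : DT, T.eval O = true ↔ ∃ τ ∈ abr T, Term.Sat O τ
  | .leaf b => by
      unfold abr DT.eval
      cases b
      · simp
      · simp [Term.Sat]
  | .node w l r => by
      have h1 := abr_sat O l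
      have h2 := abr_sat O r
      simp only [abr, DT.eval, List.mem_append, List.mem_map]
      constructor
      · intro h
        by_cases hw : O w = true
        · rw [if_pos hw] at h
          obtain ⟨τ, hτ, hs⟩ := h2.1 h
          refine ⟨(w, true) :: τ, Or.inr ⟨τ, hτ, rfl⟩, ?_⟩
          intro p hp
          rcases List.mem_cons.1 hp with rfl | hp'
          · exact hw
          · exact hs p hp'
        · rw [if_neg hw] at h
          obtain ⟨τ, hτ, hs⟩ := h1.1 h
          refine ⟨(w, false) :: τ, Or.inl ⟨τ, hτ, rfl⟩, ?_⟩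
          intro p hp
          rcases List.mem_cons.1 hp with rfl | hp'
          · simpa using hw
          · exact hs p hp'
      · rintro ⟨τ, ⟨τ', h3, rfl⟩ | ⟨τ', h3, rfl⟩, hs⟩
        · have hw : O w = false := hs (w, false) List.mem_cons_self
          rw [if_neg (by rw [hw]; simp)]
          exact h1.2 ⟨τ', h3, fun p hp => hs p (List.mem_cons_of_mem _ hp)⟩
        · have hw : O w = true := hs (w, true) List.mem_cons_self
          rw [if_pos hw]
          exact h2.2 ⟨τ', h3, fun p hp => hs p (List.mem_cons_of_mem _ hp)⟩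

/-- The strings of length at most `t`. -/
def wl : ℕ → List (List Bool)
  | 0 => [[]]
  | t + 1 => [] :: ((wl t).map (fun w => false :: w) ++ (wl t).map (fun w => true :: w))

theorem mem_wl : ∀ (t : ℕ) (w : List Bool), w ∈ wl t ↔ w.length ≤ t
  | 0, w => by
      unfold wl
      rw [List.mem_singleton]
      constructor
      · rintro rfl; simp
      · intro h
        exact List.length_eq_zero_iff.1 (Nat.le_zero.1 h)
  | t + 1, w => by
      unfold wl
      simp only [List.mem_cons, List.mem_append, List.mem_map]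
      rcases w with _ | ⟨b, w⟩
      · simp
      · rw [List.length_cons]
        constructor
        · rintro (h | ⟨v, hv, h⟩ | ⟨v, hv, h⟩)
          · exact absurd h (by simp)
          · have h2 := (mem_wl t v).1 hv
            obtain ⟨-, rfl⟩ := List.cons.inj h
            omega
          · have h2 := (mem_wl t v).1 hv
            obtain ⟨-, rfl⟩ := List.cons.inj h
            omega
        · intro h
          have h2 := (mem_wl t w).2 (by omega)
          right
          cases b
          · exact Or.inl ⟨w, h2, rfl⟩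
          · exact Or.inr ⟨w, h2, rfl⟩

theorem wl_len : ∀ t : ℕ, (wl t).length + 1 = 2 ^ (t + 1)
  | 0 => by simp [wl]
  | t + 1 => by
      have h := wl_len t
      simp only [wl, List.length_cons, List.length_append, List.length_map]
      rw [pow_succ]
      omega

/-- Remove repeated literals, drop the inconsistent terms. -/
def nrm (F : List (Term (List Bool))) : List (Term (List Bool)) :=
  (F.map List.dedup).filter fun τ => decide (τ.map Prod.fst).Nodup

theorem nrm_sat (O : List Bool → Bool) (F : List (Term (List Bool))) :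
    (∃ τ ∈ nrm F, Term.Sat O τ) ↔ ∃ τ ∈ F, Term.Sat O τ := by
  unfold nrm
  constructor
  · rintro ⟨τ, hτ, hs⟩
    obtain ⟨h1, -⟩ := List.mem_filter.1 hτ
    obtain ⟨τ', h2, rfl⟩ := List.mem_map.1 h1
    exact ⟨τ', h2, fun p hp => hs p (List.mem_dedup.2 hp)⟩
  · rintro ⟨τ, hτ, hs⟩
    refine ⟨τ.dedup, List.mem_filter.2 ⟨List.mem_map.2 ⟨τ, hτ, rfl⟩, ?_⟩,
      fun p hp => hs p (List.mem_dedup.1 hp)⟩
    rw [decide_eq_true_iff]
    apply (List.nodup_dedup τ).map_on
    intro p hp p' hp' h
    have h1 := hs p (List.mem_dedup.1 hp)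
    have h2 := hs p' (List.mem_dedup.1 hp')
    exact Prod.ext h (by rw [← h1, ← h2, h])

/-- The normal form of an instance. -/
def nfF (V : Verifier) (x : List Bool) : DNF (List Bool) :=
  nrm ((wl (x.length ^ V.c + V.c)).flatMap fun w => abr (V.tree x w))

theorem nfF_sat (V : Verifier) (x : List Bool) (O : List Bool → Bool) :
    x ∈ V.lang O ↔ DNF.Sat O (nfF V x) := by
  unfold nfF DNF.Sat
  rw [nrm_sat]
  constructor
  · rintro ⟨w, hw, hT⟩
    obtain ⟨τ, h1, h2⟩ := (abr_sat O _).1 hT
    exact ⟨τ, List.mem_flatMap.2 ⟨w, (mem_wl _ _).2 hw, h1⟩, h2⟩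
  · rintro ⟨τ, h1, h2⟩
    obtain ⟨w, hw, h3⟩ := List.mem_flatMap.1 h1
    exact ⟨w, (mem_wl _ _).1 hw, (abr_sat O _).2 ⟨τ, h3, h2⟩⟩

theorem nfF_len (V : Verifier) (x : List Bool) :
    (nfF V x).length ≤ 2 ^ (2 * (x.length ^ V.c + V.c) + 1) := by
  set t := x.length ^ V.c + V.c with ht
  unfold nfF nrm
  refine (List.length_filter_le _ _).trans ?_
  rw [List.length_map, List.length_flatMap]
  have h1 : ∀ L : List (List Bool), (∀ w ∈ L, w.length ≤ t) →
      (L.map fun w => (abr (V.tree x w)).length).sum ≤ L.length * 2 ^ t := by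
    intro L hL
    induction L with
    | nil => simp
    | cons w L ih =>
      have h2 := ih fun v hv => hL v (List.mem_cons_of_mem _ hv)
      have h3 := abr_len (V.tree x w)
      have h4 := V.depth_le x w (hL w List.mem_cons_self)
      have h5 : 2 ^ (V.tree x w).depth ≤ 2 ^ t := Nat.pow_le_pow_right (by norm_num) h4
      simp only [List.map_cons, List.sum_cons, List.length_cons]
      rw [add_mul, one_mul]
      omega
  refine (h1 _ fun w hw => (mem_wl _ _).1 hw).trans ?_
  have h6 := wl_len t
  calc (wl t).length * 2 ^ t ≤ 2 ^ (t + 1) * 2 ^ t := Nat.mul_le_mul_right _ (by omega)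
    _ = _ := by rw [← pow_add]; congr 1; omega

theorem nfF_mem (V : Verifier) (x : List Bool) (τ : Term (List Bool)) (hτ : τ ∈ nfF V x) :
    τ.length ≤ x.length ^ V.c + V.c ∧ (τ.map Prod.fst).Nodup ∧
      ∀ p ∈ τ, p.1.length ≤ x.length ^ V.c + V.c := by
  unfold nfF nrm at hτ
  obtain ⟨h1, h2⟩ := List.mem_filter.1 hτ
  rw [decide_eq_true_iff] at h2
  obtain ⟨τ', h3, rfl⟩ := List.mem_map.1 h1
  obtain ⟨w, hw, h4⟩ := List.mem_flatMap.1 h3
  have hw' := (mem_wl _ _).1 hw
  refine ⟨?_, h2, ?_⟩
  · exact (List.dedup_sublist τ').length_le.trans ((abr_tl _ τ' h4).trans (V.depth_le x w hw'))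
  · intro p hp
    exact abr_ql _ _ (V.short x w hw') τ' h4 p (List.mem_dedup.1 hp)

/-- (DNF) -/
theorem pf_DNF (hCOD : Pool.Agent.H6.NB.T_COD) : Pool.Agent.H70.RC.T_DNF := by
  classical
  intro V
  have key : ∀ s : List Bool, ∃ (F : DNF (List Bool)) (t : ℕ), (t + 1) ^ 2 ≤ s.length + 1 ∧
      F.length ≤ 2 ^ (2 * t + 1) ∧ (∀ T ∈ F, T.length ≤ t) ∧ (∀ T ∈ F, (T.map Prod.fst).Nodup) ∧
      (∀ T ∈ F, ∀ p ∈ T, p.1.length ≤ t) ∧ ∀ O, ans V O s ↔ DNF.Sat O F := by
    intro s
    by_cases h : ∃ (i : ℕ) (x : List Bool), s = inst (V i).c i x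
    · obtain ⟨i, x, hs⟩ := h
      refine ⟨nfF (V i) x, x.length ^ (V i).c + (V i).c, ?_, nfF_len _ _,
        fun T hT => (nfF_mem _ _ T hT).1, fun T hT => (nfF_mem _ _ T hT).2.1,
        fun T hT => (nfF_mem _ _ T hT).2.2, fun O => ?_⟩
      · have := inst_length hCOD (V i).c i x
        rw [← hs] at this
        omega
      · rw [← nfF_sat, hs]
        exact pf_INS hCOD V O i x
    · refine ⟨[], 0, by omega, by simp, by simp, by simp, by simp, fun O => ?_⟩
      constructor
      · rintro ⟨i, x, hs, -⟩
        exact absurd ⟨i, x, hs⟩ h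
      · rintro ⟨T, hT, -⟩
        exact absurd hT List.not_mem_nil
  choose F t h1 h2 h3 h4 h5 h6 using key
  exact ⟨F, t, ⟨h1, h2, h3, h4, h5, h6⟩⟩

end Pool.Agent.H32.RC
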