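import Pool.Agent.H28.RC.Targets3

/-!
# CRS: Artin's crossing
-/

set_option autoImplicit false

open NumberField

namespace Pool.Agent.H32.RC

open Pool.Agent.H28.RC

set_option linter.unusedSectionVars false

section

variable {F E Ω : Type} [Field F] [NumberField F] [Field E] [NumberField E] [Algebra F E]
  [Field Ω] [NumberField Ω] [Algebra F Ω]

theorem rst_eq {m : Ideal (𝓞 F)} {ψ : Ideal (𝓞 F) → ℂ} {I : Ideal (𝓞 F)} (h : I ⊔ m = ⊤) :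
    rst m ψ I = ψ I := by
  unfold rst
  rw [if_pos h]

theorem sup_top_mono {P m m' : Ideal (𝓞 F)} (h : m' ≤ m) (hP : P ⊔ m' = ⊤) : P ⊔ m = ⊤ :=
  top_le_iff.1 (hP ▸ sup_le_sup_left h P)

theorem psi_up (hPCO : T_PCO) {m m' : Ideal (𝓞 F)} {N : Subgroup (E ≃ₐ[F] E)}
    {ψ : Ideal (𝓞 F) → ℂ} (hψ : Psi m N ψ) (res : (Ω ≃ₐ[F] Ω) →* (E ≃ₐ[F] E))
    (hres : ∀ (P : Ideal (𝓞 F)) (g : Ω ≃ₐ[F] Ω), Fro P g → Fro P (res g)) (hm : m' ≤ m)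
    (hne : m' ≠ ⊥) : Psi m' (N.comap res) (rst m' ψ) where
  pc := (hPCO F m ψ hψ.pc).2 m' hm hne
  tr := by
    intro P hP g hg f hf
    rw [rst_eq hP]
    refine hψ.tr P (sup_top_mono hm hP) (res g) (hres P g hg) f ?_
    rw [← map_pow]
    exact hf

theorem mul_span_ne_bot {m : Ideal (𝓞 F)} (hm : m ≠ ⊥) (q : ℕ) [NeZero q] :
    m * Ideal.span {(q : 𝓞 F)} ≠ ⊥ := by
  intro h
  rcases Ideal.mul_eq_bot.1 h with h | h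
  · exact hm h
  · rw [Ideal.span_singleton_eq_bot] at h
    exact NeZero.ne q (by exact_mod_cast h)

theorem zpow_eq_one_of_dvd {A : Type} [Group A] [Finite A] (a : A) {i : ℤ}
    (h : (Nat.card A : ℤ) ∣ i) : a ^ i = 1 := by
  obtain ⟨t, rfl⟩ := h
  rw [zpow_mul, zpow_natCast, pow_card_eq_one', one_zpow]

/-- the subgroup of the `g` with `(f g, c g) = (a, b)^i (a', b')^j` for some `i`, `j` -/
def Hs {G A B : Type} [Group G] [Group A] [CommGroup B] (hA : ∀ x y : A, x * y = y * x)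
    (f : G →* A) (c : G →* B) (a a' : A) (b b' : B) : Subgroup G where
  carrier := {g | ∃ i j : ℤ, f g = a ^ i * a' ^ j ∧ c g = b ^ i * b' ^ j}
  one_mem' := ⟨0, 0, by simp, by simp⟩
  mul_mem' := by
    rintro x y ⟨i, j, h1, h2⟩ ⟨i', j', h3, h4⟩
    refine ⟨i + i', j + j', ?_, ?_⟩
    · rw [map_mul, h1, h3, zpow_add, zpow_add, mul_assoc, ← mul_assoc (a' ^ j), hA (a' ^ j)]
      simp only [mul_assoc]
    · rw [map_mul, h2, h4, zpow_add, zpow_add, mul_mul_mul_comm]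
  inv_mem' := by
    rintro x ⟨i, j, h1, h2⟩
    refine ⟨-i, -j, ?_, ?_⟩
    · rw [map_inv, h1, mul_inv_rev, zpow_neg, zpow_neg, hA]
    · rw [map_inv, h2, mul_inv_rev, zpow_neg, zpow_neg, mul_comm]

theorem crs_main (hFRE : T_FRE) (hPCO : T_PCO) (hLOC : T_LOC) (hCPR : T_CPR) (hNTB : T_NTB)
    (hGAL : T_GAL) [IsGalois F E] [IsGalois F Ω] {m m1 : Ideal (𝓞 F)}
    (hA : ∀ x y : E ≃ₐ[F] E, x * y = y * x) (hm1 : m1 ≤ m) (hne1 : m1 ≠ ⊥) (hUR : UR E m)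
    (hUR1 : UR Ω m1) (res1 : (Ω ≃ₐ[F] Ω) →* (E ≃ₐ[F] E))
    (hres1 : ∀ (P : Ideal (𝓞 F)) (g : Ω ≃ₐ[F] Ω), Fro P g → Fro P (res1 g))
    {ψ1 : Ideal (𝓞 F) → ℂ} (hψ1 : Psi m1 ((⊥ : Subgroup (E ≃ₐ[F] E)).comap res1) ψ1)
    {H1 : Subgroup (Ω ≃ₐ[F] Ω)} {μ1 : H1 →* ℂˣ} (hL1 : Loc m1 ψ1 H1 μ1) (x1 : Ω ≃ₐ[F] Ω)
    (hx1 : x1 ∈ H1) (P : Ideal (𝓞 F)) (hP : P ⊔ m1 = ⊤) (g0 : E ≃ₐ[F] E) (hg0 : Fro P g0)
    (k : ℤ) (hk : g0 = res1 x1 ^ k) : ψ1 P = ((μ1 ⟨x1, hx1⟩ ^ k : ℂˣ) : ℂ) := by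
  obtain ⟨hPp, hPb⟩ := (hFRE F E).2.1 P g0 hg0
  have hN0 : Ideal.absNorm P ≠ 0 := fun h => hPb (Ideal.absNorm_eq_zero_iff.1 h)
  have hN1 : Ideal.absNorm P ≠ 1 := fun h => hPp.ne_top (Ideal.absNorm_eq_one_iff.1 h)
  have hN : 2 ≤ Ideal.absNorm P := by omega
  have hn : 1 ≤ Nat.card (E ≃ₐ[F] E) := Nat.card_pos
  have hD : 1 ≤ (discr Ω).natAbs := Nat.one_le_iff_ne_zero.2 (Int.natAbs_ne_zero.2 (discr_ne_zero Ω))
  obtain ⟨q, hq0, α, τ, hqD, hqN, hα, hnα, hnτ, hατ⟩ := hNTB _ _ _ hn hN hD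
  obtain ⟨Ω2, _, _, _, _, ζ, res, c, hζ, hcζ, hsur, hres, hcN, hURg⟩ := hGAL F Ω q hqD
  -- the modulus
  have hm2 : m1 * Ideal.span {(q : 𝓞 F)} ≤ m1 := Ideal.mul_le_left
  have hm2q : m1 * Ideal.span {(q : 𝓞 F)} ≤ Ideal.span {(q : 𝓞 F)} := Ideal.mul_le_right
  have hne2 : m1 * Ideal.span {(q : 𝓞 F)} ≠ ⊥ := mul_span_ne_bot hne1 q
  have hUR2 : UR Ω2 (m1 * Ideal.span {(q : 𝓞 F)}) := hURg m1 hUR1
  have hψ2 : Psi (m1 * Ideal.span {(q : 𝓞 F)})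
      (((⊥ : Subgroup (E ≃ₐ[F] E)).comap res1).comap res)
      (rst (m1 * Ideal.span {(q : 𝓞 F)}) ψ1) := psi_up hPCO hψ1 res hres hm2 hne2
  have hPq : P ⊔ Ideal.span {(q : 𝓞 F)} = ⊤ := by
    rw [Ideal.eq_top_iff_one]
    have h1 : ((Ideal.absNorm P : ℕ) : 𝓞 F) ∈ P := Ideal.absNorm_mem P
    obtain ⟨u, v, huv⟩ := Nat.isCoprime_iff_coprime.2 hqN
    have h2 : (1 : 𝓞 F) = (v : 𝓞 F) * ((Ideal.absNorm P : ℕ) : 𝓞 F) + (u : 𝓞 F) * (q : 𝓞 F) := by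
      have := congrArg (fun z : ℤ => (z : 𝓞 F)) huv
      push_cast at this
      rw [← this]
      ring
    rw [h2]
    exact Submodule.add_mem_sup (Ideal.mul_mem_left _ _ h1)
      (Ideal.mul_mem_left _ _ (Ideal.mem_span_singleton_self _))
  have hP2 : P ⊔ m1 * Ideal.span {(q : 𝓞 F)} = ⊤ := (Ideal.sup_mul_eq_of_coprime_left hP).trans hPq
  obtain ⟨y, hy⟩ := (hFRE F Ω2).1 P hPp hPb
  have hφ : res1 (res y) = g0 := by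
    obtain ⟨x, hx⟩ := (hFRE F E).2.2.2 m P g0 (res1 (res y)) hUR (sup_top_mono hm1 hP) hg0
      (hres1 P _ (hres P _ hy))
    rw [hx, mul_assoc, hA g0 x, inv_mul_cancel_left]
  -- the subgroup
  let H : Subgroup (Ω2 ≃ₐ[F] Ω2) := Hs hA (res1.comp res) c (res1 x1) g0 τ α
  have hHζ : ∀ h ∈ H, h ζ = ζ → h ∈ ((⊥ : Subgroup (E ≃ₐ[F] E)).comap res1).comap res := by
    rintro h ⟨i, j, h1, h2⟩ hh
    rw [hcζ h hh] at h2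
    have h3 : α ^ j = τ ^ (-i) := by
      rw [zpow_neg]
      exact (inv_eq_of_mul_eq_one_right h2.symm).symm
    have h4 : α ^ j = 1 := hατ j (-i) h3
    have h5 : τ ^ i = 1 := by
      rw [h4, mul_one] at h2
      exact h2.symm
    have h6 : ((Nat.card (E ≃ₐ[F] E) : ℕ) : ℤ) ∣ i :=
      (Int.natCast_dvd_natCast.2 hnτ).trans (orderOf_dvd_iff_zpow_eq_one.2 h5)
    have h7 : ((Nat.card (E ≃ₐ[F] E) : ℕ) : ℤ) ∣ j :=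
      (Int.natCast_dvd_natCast.2 hnα).trans (orderOf_dvd_iff_zpow_eq_one.2 h4)
    rw [Subgroup.mem_comap, Subgroup.mem_comap, Subgroup.mem_bot]
    have h8 : res1 (res h) = res1 x1 ^ i * g0 ^ j := h1
    rw [h8, zpow_eq_one_of_dvd _ h6, zpow_eq_one_of_dvd _ h7, mul_one]
  obtain ⟨μ, hμ, hL⟩ := hLOC F Ω2 (m1 * Ideal.span {(q : 𝓞 F)})
    (((⊥ : Subgroup (E ≃ₐ[F] E)).comap res1).comap res) H q ζ
    (rst (m1 * Ideal.span {(q : 𝓞 F)}) ψ1) hζ hm2q hUR2 inferInstance hHζ hψ2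
  have hL' : Loc (m1 * Ideal.span {(q : 𝓞 F)}) (rst (m1 * Ideal.span {(q : 𝓞 F)}) ψ1)
      (H1.comap res) (μ1.comp (res.subgroupComap H1)) := by
    intro P' hP' g hg d h
    have h1 : (res g) ^ d ∈ H1 := by
      rw [← map_pow]
      exact h
    have h2 : (⟨(res g) ^ d, h1⟩ : H1) = res.subgroupComap H1 ⟨g ^ d, h⟩ :=
      Subtype.ext (map_pow res g d).symm
    rw [rst_eq hP', hL1 P' (sup_top_mono hm2 hP') (res g) (hres P' g hg) d h1, h2]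
    rfl
  obtain ⟨x, hx, hcx⟩ := hsur x1 τ
  have hxH : x ∈ H := ⟨1, 0, by simp [hx], by simp [hcx]⟩
  have hxH1 : x ∈ H1.comap res := by
    rw [Subgroup.mem_comap, hx]
    exact hx1
  have hz : μ ⟨x, hxH⟩ = μ1 ⟨x1, hx1⟩ := by
    rw [hCPR F Ω2 _ _ _ _ _ _ hne2 hUR2 hL hL' x hxH hxH1]
    show μ1 _ = μ1 _
    congr 1
    exact Subtype.ext hx
  have hcy : c y = α := by
    apply Units.ext
    rw [hcN P y hy hPq, hα]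
  have hyH : y ∈ H := ⟨0, 1, by simp [hφ], by simp [hcy]⟩
  have h1 := hL P hP2 y hy 1 (by rw [pow_one]; exact hyH)
  rw [pow_one, rst_eq hP2] at h1
  rw [h1]
  congr 1
  have h2 : (⟨y ^ 1, by rw [pow_one]; exact hyH⟩ : H) = (⟨y, hyH⟩ * (⟨x, hxH⟩ ^ k)⁻¹) *
      ⟨x, hxH⟩ ^ k := by
    rw [inv_mul_cancel_right]
    exact Subtype.ext (pow_one y)
  rw [h2, map_mul, map_zpow, hz, hμ, one_mul]
  show y * (x ^ k)⁻¹ ∈ ((⊥ : Subgroup (E ≃ₐ[F] E)).comap res1).comap res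
  rw [Subgroup.mem_comap, Subgroup.mem_comap, Subgroup.mem_bot, map_mul, map_inv, map_zpow,
    map_mul, map_inv, map_zpow, hφ, hx, hk, mul_inv_cancel]

end

theorem pf_CRS : T_FRE → T_PCO → T_LOC → T_CPR → T_NTB → T_GAL → T_CRS := by
  intro hFRE hPCO hLOC hCPR hNTB hGAL F E _ _ _ _ _ _ m hcyc hm hUR
  obtain ⟨σ, hσ⟩ := hcyc.exists_generator
  have hA : ∀ x y : E ≃ₐ[F] E, x * y = y * x := by
    intro x y
    obtain ⟨i, rfl⟩ := Subgroup.mem_zpowers_iff.1 (hσ x)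
    obtain ⟨j, rfl⟩ := Subgroup.mem_zpowers_iff.1 (hσ y)
    rw [← zpow_add, ← zpow_add, add_comm]
  have hn : 1 ≤ Nat.card (E ≃ₐ[F] E) := Nat.card_pos
  have hD : 1 ≤ (discr E).natAbs := Nat.one_le_iff_ne_zero.2 (Int.natAbs_ne_zero.2 (discr_ne_zero E))
  obtain ⟨q, hq0, α, τ, hqD, -, -, -, hnτ, -⟩ := hNTB _ _ _ hn le_rfl hD
  refine ⟨q, Nat.one_le_iff_ne_zero.2 (NeZero.ne q), fun ψ hψ => ?_⟩
  obtain ⟨Ω, _, _, _, _, ζ, res, c, hζ, hcζ, hsur, hres, hcN, hURg⟩ := hGAL F E q hqD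
  have hm1 : m * Ideal.span {(q : 𝓞 F)} ≤ m := Ideal.mul_le_left
  have hm1q : m * Ideal.span {(q : 𝓞 F)} ≤ Ideal.span {(q : 𝓞 F)} := Ideal.mul_le_right
  have hne1 : m * Ideal.span {(q : 𝓞 F)} ≠ ⊥ := mul_span_ne_bot hm q
  have hUR1 : UR Ω (m * Ideal.span {(q : 𝓞 F)}) := hURg m hUR
  have hψ1 : Psi (m * Ideal.span {(q : 𝓞 F)}) ((⊥ : Subgroup (E ≃ₐ[F] E)).comap res)
      (rst (m * Ideal.span {(q : 𝓞 F)}) ψ) := psi_up hPCO hψ res hres hm1 hne1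
  let H1 : Subgroup (Ω ≃ₐ[F] Ω) :=
    (Subgroup.zpowers ((σ, τ) : (E ≃ₐ[F] E) × (ZMod q)ˣ)).comap (res.prod c)
  have hH1 : ∀ h ∈ H1, h ζ = ζ → h ∈ (⊥ : Subgroup (E ≃ₐ[F] E)).comap res := by
    rintro h ⟨i, hi⟩ hh
    have h1 : σ ^ i = res h := congrArg Prod.fst hi
    have h2 : τ ^ i = c h := congrArg Prod.snd hi
    rw [hcζ h hh] at h2
    have h3 : ((Nat.card (E ≃ₐ[F] E) : ℕ) : ℤ) ∣ i :=
      (Int.natCast_dvd_natCast.2 hnτ).trans (orderOf_dvd_iff_zpow_eq_one.2 h2)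
    rw [Subgroup.mem_comap, Subgroup.mem_bot, ← h1, zpow_eq_one_of_dvd _ h3]
  obtain ⟨μ1, hμ1, hL1⟩ := hLOC F Ω (m * Ideal.span {(q : 𝓞 F)})
    ((⊥ : Subgroup (E ≃ₐ[F] E)).comap res) H1 q ζ (rst (m * Ideal.span {(q : 𝓞 F)}) ψ) hζ hm1q
    hUR1 inferInstance hH1 hψ1
  obtain ⟨x1, hx1, hcx1⟩ := hsur σ τ
  have hx1H : x1 ∈ H1 := ⟨1, by
    show ((σ, τ) : (E ≃ₐ[F] E) × (ZMod q)ˣ) ^ (1 : ℤ) = (res.prod c) x1
    rw [zpow_one]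
    exact Prod.ext hx1.symm hcx1.symm⟩
  have hzn : μ1 ⟨x1, hx1H⟩ ^ Nat.card (E ≃ₐ[F] E) = 1 := by
    rw [← map_pow]
    apply hμ1
    show x1 ^ Nat.card (E ≃ₐ[F] E) ∈ (⊥ : Subgroup (E ≃ₐ[F] E)).comap res
    rw [Subgroup.mem_comap, Subgroup.mem_bot, map_pow, pow_card_eq_one']
  have hzn' : orderOf (μ1 ⟨x1, hx1H⟩) ∣ orderOf σ := by
    rw [orderOf_eq_card_of_forall_mem_zpowers hσ]
    exact orderOf_dvd_of_pow_eq_one hzn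
  refine ⟨monoidHomOfForallMemZpowers hσ hzn', fun P hPm hPq g hg => ?_⟩
  obtain ⟨k, hk⟩ := Subgroup.mem_zpowers_iff.1 (hσ g)
  have hP1 : P ⊔ m * Ideal.span {(q : 𝓞 F)} = ⊤ := (Ideal.sup_mul_eq_of_coprime_left hPm).trans hPq
  have h1 := crs_main hFRE hPCO hLOC hCPR hNTB hGAL hA hm1 hne1 hUR hUR1 res hres hψ1 hL1 x1
    hx1H P hP1 g hg k (by rw [hx1, hk])
  rw [rst_eq hP1] at h1
  rw [h1, ← hk, map_zpow, monoidHomOfForallMemZpowers_apply_gen]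

end Pool.Agent.H32.RC
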